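import Pool.Agent.W163.P3.Stm3

set_option autoImplicit false

/-!
P3-FIN2: translation to the frozen statement S08607.
-/

open Finset

namespace Pool.Agent.W154.P3

open Pool.Agent.W163.P3

/-- number of ordered paths through codes -/
theorem TS_eq {n : ℕ} (s : Fin n → Fin n → ℕ) (hs : Ori s) :
    TS s univ = 6 * ∑ x, ∑ y, ∑ z, (if s x y = 1 ∧ s y z = 1 ∧ s x z = 0 then 1 else 0) := by
  classical
  set P : Fin n → Fin n → Fin n → ℕ := fun a b c =>
    if s a b = 1 ∧ s b c = 1 ∧ s a c = 0 then 1 else 0 with hP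
  set N := ∑ x, ∑ y, ∑ z, P x y z with hN
  have e1 : ∑ x, ∑ y, ∑ z, P x z y = N := by
    rw [hN]
    exact sum_congr rfl fun x _ => sum_comm
  have e2 : ∑ x, ∑ y, ∑ z, P y x z = N := by
    rw [hN]
    exact sum_comm
  have e3 : ∑ x, ∑ y, ∑ z, P y z x = N := by
    rw [hN, sum_comm]
    exact sum_congr rfl fun x _ => sum_comm
  have e4 : ∑ x, ∑ y, ∑ z, P z x y = N := by
    calc ∑ x, ∑ y, ∑ z, P z x y = ∑ x, ∑ z, ∑ y, P z x y := sum_congr rfl fun x _ => sum_comm
      _ = N := by rw [hN]; exact sum_comm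
  have e5 : ∑ x, ∑ y, ∑ z, P z y x = N := by
    calc ∑ x, ∑ y, ∑ z, P z y x = ∑ x, ∑ z, ∑ y, P z y x := sum_congr rfl fun x _ => sum_comm
      _ = ∑ z, ∑ x, ∑ y, P z y x := sum_comm
      _ = N := by
        rw [hN]
        exact sum_congr rfl fun x _ => sum_comm
  have hpt : ∀ x y z : Fin n, P x y z + P x z y + P y x z + P y z x + P z x y + P z y x =
      pc (s x y) (s x z) (s y z) := by
    intro x y z
    simp only [hP, pc]
    rcases hs x y with ⟨h1, h2⟩ | ⟨h1, h2⟩ | ⟨h1, h2⟩ <;>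
    rcases hs x z with ⟨h3, h4⟩ | ⟨h3, h4⟩ | ⟨h3, h4⟩ <;>
    rcases hs y z with ⟨h5, h6⟩ | ⟨h5, h6⟩ | ⟨h5, h6⟩ <;>
    simp [h1, h2, h3, h4, h5, h6]
  have h6 : 6 * N = ∑ x, ∑ y, ∑ z, (P x y z + P x z y + P y x z + P y z x + P z x y + P z y x) := by
    simp only [sum_add_distrib]
    rw [e1, e2, e3, e4, e5]
    omega
  rw [h6]
  unfold TS
  exact (sum_congr rfl fun x _ => sum_congr rfl fun y _ => sum_congr rfl fun z _ => hpt x y z).symm

/-- the filter card as a triple sum -/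
theorem card_eq {n : ℕ} (r : Fin n → Fin n → Bool) (s : Fin n → Fin n → ℕ) (hs : Ori s)
    (h1 : ∀ x y, r x y = true ↔ s x y = 1) :
    ((Finset.univ : Finset (Fin n × Fin n × Fin n)).filter
            (fun t => r t.1 t.2.1 = true ∧ r t.2.1 t.2.2 = true ∧
              r t.1 t.2.2 = false ∧ r t.2.2 t.1 = false ∧ t.1 ≠ t.2.2)).card =
    ∑ x, ∑ y, ∑ z, (if s x y = 1 ∧ s y z = 1 ∧ s x z = 0 then 1 else 0) := by
  classical
  have h6 : ((Finset.univ : Finset (Fin n × Fin n × Fin n)).filter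
            (fun t => r t.1 t.2.1 = true ∧ r t.2.1 t.2.2 = true ∧
              r t.1 t.2.2 = false ∧ r t.2.2 t.1 = false ∧ t.1 ≠ t.2.2)) =
      univ.filter (fun t : Fin n × Fin n × Fin n =>
        s t.1 t.2.1 = 1 ∧ s t.2.1 t.2.2 = 1 ∧ s t.1 t.2.2 = 0) := by
    ext t
    obtain ⟨x, y, z⟩ := t
    simp only [mem_filter, mem_univ, true_and]
    rw [h1, h1]
    constructor
    · rintro ⟨a1, a2, a3, a4, a5⟩
      refine ⟨a1, a2, ?_⟩
      have b3 : ¬ s x z = 1 := fun h => by rw [(h1 x z).2 h] at a3; exact absurd a3 (by decide)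
      have b4 : ¬ s z x = 1 := fun h => by rw [(h1 z x).2 h] at a4; exact absurd a4 (by decide)
      rcases hs x z with ⟨h3, h4⟩ | ⟨h3, h4⟩ | ⟨h3, h4⟩
      · exact h3
      · exact absurd h3 b3
      · exact absurd h4 b4
    · rintro ⟨a1, a2, a3⟩
      have b4 : s z x = 0 := by
        rcases hs x z with ⟨h3, h4⟩ | ⟨h3, h4⟩ | ⟨h3, h4⟩ <;> omega
      refine ⟨a1, a2, ?_, ?_, ?_⟩
      · rw [Bool.eq_false_iff, Ne, h1]; omega
      · rw [Bool.eq_false_iff, Ne, h1]; omega
      · rintro rfl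
        rcases hs x y with ⟨h3, h4⟩ | ⟨h3, h4⟩ | ⟨h3, h4⟩ <;> omega
  rw [h6, card_filter, Fintype.sum_prod_type]
  refine sum_congr rfl fun x _ => ?_
  rw [Fintype.sum_prod_type]

theorem t_FIN2 : Pool.Agent.W163.P3.S_FIN2 := by
  classical
  intro H L
  refine ⟨1, fun n => ⟨?_, ?_⟩⟩
  · intro r hr1 hr2
    set s : Fin n → Fin n → ℕ := fun x y => if r x y = true then 1 else if r y x = true then 2 else 0 with hsdef
    have hOri : Ori s := by
      intro x y
      unfold Pr
      simp only [hsdef]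
      have h1 := hr2 x y
      by_cases hx : r x y = true <;> by_cases hy : r y x = true <;> simp_all
    have h1 : ∀ x y, r x y = true ↔ s x y = 1 := by
      intro x y
      simp only [hsdef]
      by_cases hx : r x y = true
      · simp [hx]
      · by_cases hy : r y x = true <;> simp [hx, hy]
    rw [card_eq r s hOri h1]
    have h2 := TS_eq s hOri
    rcases Nat.eq_zero_or_pos n with h0 | h0
    · subst h0
      simp
    have h3 := H n s h0 hOri
    rw [h2] at h3
    set N := ∑ x, ∑ y, ∑ z, (if s x y = 1 ∧ s y z = 1 ∧ s x z = 0 then 1 else 0) with hN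
    have h4 : (5 * (6 * (N : ℝ)) + 2 * (n : ℝ)) ≤ 2 * (n : ℝ) ^ 3 := by exact_mod_cast h3
    have h5 : (0 : ℝ) < n := by exact_mod_cast h0
    nlinarith
  · obtain ⟨s, hOri, hs⟩ := L n
    refine ⟨fun x y => decide (s x y = 1), ?_, ?_, ?_⟩
    · intro i
      have := hOri i i
      unfold Pr at this
      simp only [decide_eq_false_iff_not]
      omega
    · intro i j
      have := hOri i j
      unfold Pr at this
      simp only [decide_eq_true_eq]
      omega
    · rw [card_eq (fun x y => decide (s x y = 1)) s hOri (fun x y => by simp)]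
      have h2 := TS_eq s hOri
      rw [h2] at hs
      set N := ∑ x, ∑ y, ∑ z, (if s x y = 1 ∧ s y z = 1 ∧ s x z = 0 then 1 else 0) with hN
      push_cast at hs
      have h5 : (0 : ℝ) ≤ n := Nat.cast_nonneg n
      nlinarith [sq_nonneg (n : ℝ)]

end Pool.Agent.W154.P3
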